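import Pool.Agent.H.MP_4c49f5_co.C

namespace Pool.Agent.Results.MP_4c49f5_co.Leaves

open Finset Pool.Agent.H.MP_4c49f5_co

section
variable {V E : Type} [Fintype V] [DecidableEq V] [Fintype E] [DecidableEq E]
  (ends : E → Sym2 V) (r : V)

/-- `a` and `b` are joined by a walk using only edges of `F`. -/
def Conn (F : Finset E) : V → V → Prop :=
  Relation.ReflTransGen fun a b => ∃ e ∈ F, ends e = s(a, b)

/-- `F` is the edge set of a tree containing the root: every endpoint of an edge of `F` is joined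
to the root inside `F`, and `F` has no cycle (the ends of an edge `e` of `F` are not joined
in `F` minus `e`; this excludes loops and parallel pairs). -/
def Feasible (F : Finset E) : Prop :=
  (∀ e ∈ F, ∀ v ∈ ends e, Conn ends F r v) ∧
    ∀ e ∈ F, ∀ a b, ends e = s(a, b) → ¬ Conn ends (F.erase e) a b

open Classical in
/-- greedoid rank: the largest size of a feasible subset of `A`. -/
noncomputable def rank (A : Finset E) : ℕ := (A.powerset.filter (Feasible ends r)).sup card

/-- The Tutte polynomial in `ℤ[y][x]`: `x` is the outer variable, `y` the inner one. -/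
noncomputable def tutte : Polynomial (Polynomial ℤ) :=
  ∑ A : Finset E, (Polynomial.X - 1) ^ (rank ends r univ - rank ends r A) *
    (Polynomial.C Polynomial.X - 1) ^ (A.card - rank ends r A)

/-- degree, a loop counting twice -/
def deg (v : V) : ℕ := ∑ e, if ends e = s(v, v) then 2 else if v ∈ ends e then 1 else 0

/-- leaves incident to the root: vertices of degree one adjacent to the root -/
def leaves : Finset V := univ.filter fun v => deg ends v = 1 ∧ ∃ e, ends e = s(r, v)

/-- non-root vertices adjacent to the root that lie on exactly one non-loop edge -/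
def leavesUpToLoops : Finset V := univ.filter fun v =>
  v ≠ r ∧ (univ.filter fun e => v ∈ ends e ∧ ends e ≠ s(v, v)).card = 1 ∧ ∃ e, ends e = s(r, v)

open Classical in
noncomputable def comp (A : Finset E) : Finset V := univ.filter (Conn ends A r)

def mu (u v : V) : ℕ := (univ.filter fun e => ends e = s(u, v)).card

def EE (X : Finset V) : Finset E := univ.filter fun e => ∀ v ∈ ends e, v ∈ X

variable {ends r}

lemma mem_comp {A : Finset E} {v : V} : v ∈ comp ends r A ↔ Conn ends A r v := by simp [comp]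

lemma mem_EE {X : Finset V} {e : E} {a b : V} (h : ends e = s(a, b)) :
    e ∈ EE ends X ↔ a ∈ X ∧ b ∈ X := by simp [EE, h]

lemma Conn.mono {A B : Finset E} (h : A ⊆ B) {a b : V} (c : Conn ends A a b) : Conn ends B a b := by
  induction c with
  | refl => exact .refl
  | tail _ h' ih =>
    obtain ⟨e, he, h''⟩ := h'
    exact ih.tail ⟨e, h he, h''⟩

lemma Conn.symm {A : Finset E} {a b : V} (c : Conn ends A a b) : Conn ends A b a := by
  induction c with
  | refl => exact .refl
  | tail _ h ih =>
    obtain ⟨e, he, h'⟩ := h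
    exact Relation.ReflTransGen.head ⟨e, he, by rw [h', Sym2.eq_swap]⟩ ih

lemma comp_le {A : Finset E} {Z : Finset V} (hr : r ∈ Z)
    (h : ∀ e ∈ A, ∀ a b, ends e = s(a, b) → a ∈ Z → b ∈ Z) : comp ends r A ⊆ Z := by
  intro v hv
  rw [mem_comp] at hv
  induction hv with
  | refl => exact hr
  | tail _ h' ih =>
    obtain ⟨e, he, h''⟩ := h'
    exact h e he _ _ h'' ih

lemma comp_step {A : Finset E} {e : E} (he : e ∈ A) {a b : V} (h : ends e = s(a, b))
    (ha : a ∈ comp ends r A) : b ∈ comp ends r A :=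
  mem_comp.2 (Relation.ReflTransGen.tail (mem_comp.1 ha) ⟨e, he, h⟩)

lemma r_comp (A : Finset E) : r ∈ comp ends r A := mem_comp.2 .refl

lemma comp_mono {A B : Finset E} (h : A ⊆ B) : comp ends r A ⊆ comp ends r B :=
  fun _ hv => mem_comp.2 ((mem_comp.1 hv).mono h)

lemma tree (A : Finset E) : ∃ F ⊆ A, Feasible ends r F ∧ comp ends r F = comp ends r A ∧
    F.card + 1 = (comp ends r F).card := by
  classical
  obtain ⟨F, hF, hmax⟩ := exists_max_image (A.powerset.filter fun F => Feasible ends r F ∧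
    F.card + 1 = (comp ends r F).card) card ⟨∅, by
      have : comp ends r ∅ = {r} :=
        Subset.antisymm (comp_le (by simp) (by simp)) (by simpa using r_comp ∅)
      simp [Feasible, this]⟩
  rw [mem_filter, mem_powerset] at hF
  obtain ⟨h1, h2, h3⟩ := hF
  refine ⟨F, h1, h2, Subset.antisymm (comp_mono h1) (comp_le (r_comp F) ?_), h3⟩
  intro e he u v huv hu
  by_contra hv
  have hin : ∀ g ∈ F, ∀ a b, ends g = s(a, b) → a ∈ comp ends r F ∧ b ∈ comp ends r F :=
    fun g hg a b h => ⟨mem_comp.2 (h2.1 g hg a (by simp [h])), mem_comp.2 (h2.1 g hg b (by simp [h]))⟩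
  have heF : e ∉ F := fun a => hv (hin e a u v huv).2
  have hc : comp ends r (insert e F) = insert v (comp ends r F) := by
    refine Subset.antisymm (comp_le (mem_insert_of_mem (r_comp F)) ?_) ?_
    · intro g hg a b hab _
      rcases mem_insert.1 hg with rfl | hg
      · rw [huv, Sym2.eq_iff] at hab
        rcases hab with ⟨-, rfl⟩ | ⟨rfl, -⟩
        · exact mem_insert_self _ _
        · exact mem_insert_of_mem hu
      · exact mem_insert_of_mem (hin g hg a b hab).2
    · exact insert_subset (comp_step (mem_insert_self _ _) huv (comp_mono (subset_insert _ _) hu))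
        (comp_mono (subset_insert _ _))
  have := hmax (insert e F) (by
    rw [mem_filter, mem_powerset]
    refine ⟨insert_subset he h1, ⟨fun g hg z hz => ?_, fun g hg a b hab c => ?_⟩, ?_⟩
    · rw [← mem_comp, hc]
      rcases mem_insert.1 hg with rfl | hg
      · rw [huv, Sym2.mem_iff] at hz
        rcases hz with rfl | rfl
        · exact mem_insert_of_mem hu
        · exact mem_insert_self _ _
      · exact mem_insert_of_mem (mem_comp.2 (h2.1 g hg z hz))
    · rcases mem_insert.1 hg with rfl | hg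
      · rw [erase_insert heF] at c
        rw [huv, Sym2.eq_iff] at hab
        rcases hab with ⟨rfl, rfl⟩ | ⟨rfl, rfl⟩
        · exact hv (mem_comp.2 ((mem_comp.1 hu).trans c))
        · exact hv (mem_comp.2 ((mem_comp.1 hu).trans c.symm))
      · have key : ∀ {a b}, Conn ends ((insert e F).erase g) a b →
            Conn ends (F.erase g) (if a = v then u else a) (if b = v then u else b) := by
          intro a b c
          induction c with
          | refl => exact .refl
          | @tail b' c' _ h ih =>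
            obtain ⟨f, hf, h'⟩ := h
            rw [mem_erase, mem_insert] at hf
            have huv' : u ≠ v := fun a => hv (a ▸ hu)
            rcases hf.2 with rfl | hf'
            · rw [huv, Sym2.eq_iff] at h'
              rcases h' with ⟨rfl, rfl⟩ | ⟨rfl, rfl⟩
              · simpa [huv'] using ih
              · simpa [huv'] using ih
            · obtain ⟨p1, p2⟩ := hin f hf' _ _ h'
              have q1 : b' ≠ v := fun a => hv (a ▸ p1)
              have q2 : c' ≠ v := fun a => hv (a ▸ p2)
              rw [if_neg q1] at ih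
              rw [if_neg q2]
              exact ih.tail ⟨f, mem_erase.2 ⟨hf.1, hf'⟩, h'⟩
        obtain ⟨p1, p2⟩ := hin g hg _ _ hab
        have := key c
        rw [if_neg (fun e' : a = v => hv (e' ▸ p1)), if_neg (fun e' : b = v => hv (e' ▸ p2))] at this
        exact h2.2 g hg a b hab this
    · rw [hc, card_insert_of_notMem heF, card_insert_of_notMem hv, h3])
  rw [card_insert_of_notMem heF] at this
  omega

lemma rank_eq (A : Finset E) :
    rank ends r A + 1 = (comp ends r A).card ∧ rank ends r A ≤ A.card := by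
  classical
  obtain ⟨F, h1, h2, h3, h4⟩ := tree (ends := ends) (r := r) A
  have a : F.card ≤ rank ends r A :=
    le_sup (f := card) (mem_filter.2 ⟨mem_powerset.2 h1, h2⟩)
  have b : rank ends r A ≤ F.card := by
    refine Finset.sup_le fun G hG => ?_
    rw [mem_filter, mem_powerset] at hG
    obtain ⟨G', g1, g2, g3, g4⟩ := tree (ends := ends) (r := r) G
    have : G ⊆ G' := by
      intro e he
      by_contra hn
      induction hab : ends e using Sym2.ind with
      | _ a b =>
      have p1 : a ∈ comp ends r G' := g3 ▸ mem_comp.2 (hG.2.1 e he a (by simp [hab]))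
      have p2 : b ∈ comp ends r G' := g3 ▸ mem_comp.2 (hG.2.1 e he b (by simp [hab]))
      refine hG.2.2 e he a b hab (Conn.mono (A := G') (fun f hf => ?_)
        ((mem_comp.1 p1).symm.trans (mem_comp.1 p2)))
      exact mem_erase.2 ⟨fun c => hn (c ▸ hf), g1 hf⟩
    have c1 := card_le_card this
    have c2 := card_le_card (comp_mono (ends := ends) (r := r) hG.1)
    rw [h3] at h4
    rw [g3] at g4
    omega
  have c := card_le_card h1
  rw [h3] at h4
  omega

lemma ecount {X Z : Finset V} (h : Z ⊆ X) :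
    (EE ends X).card = (EE ends Z).card + (EE ends (X \ Z)).card + cut (mu ends) X Z := by
  have e : cut (mu ends) X Z =
      ∑ e, ∑ v ∈ X \ Z, ∑ z ∈ Z, if ends e = s(v, z) then 1 else 0 := by
    simp only [cut, dg, mu, card_filter]
    symm
    rw [sum_comm]
    refine sum_congr rfl fun v _ => ?_
    rw [sum_comm]
  rw [e]
  simp only [EE, card_filter, ← sum_add_distrib]
  refine sum_congr rfl fun e _ => ?_
  induction ends e using Sym2.ind with
  | _ a b =>
  have key : ∀ a b : V, a ∈ X \ Z → b ∈ Z →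
      (∑ v ∈ X \ Z, ∑ z ∈ Z, if s(a, b) = s(v, z) then 1 else 0) = 1 := by
    intro a b ha hb
    rw [sum_eq_single_of_mem a ha, sum_eq_single_of_mem b hb]
    · simp
    · intro z _ hz
      simp [hz.symm]
      rintro rfl rfl
      exact hz rfl
    · intro v hv hva
      refine sum_eq_zero fun z _ => if_neg fun c => ?_
      rw [Sym2.eq_iff] at c
      rcases c with c | c
      · exact hva c.1.symm
      · exact (mem_sdiff.1 hv).2 (c.2 ▸ hb)
  by_cases h1 : a ∈ X \ Z ∧ b ∈ Z
  · rw [key a b h1.1 h1.2]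
    have := mem_sdiff.1 h1.1
    simp [this.1, this.2, h1.2, h h1.2]
  by_cases h2 : b ∈ X \ Z ∧ a ∈ Z
  · rw [Sym2.eq_swap, key b a h2.1 h2.2]
    have := mem_sdiff.1 h2.1
    simp [this.1, this.2, h2.2, h h2.2]
  rw [sum_eq_zero fun v hv => sum_eq_zero fun z hz => if_neg fun c => ?_]
  · have := @h a
    have := @h b
    simp only [mem_sdiff, Sym2.mem_iff, forall_eq_or_imp, forall_eq] at h1 h2 ⊢
    by_cases a ∈ X <;> by_cases b ∈ X <;> by_cases a ∈ Z <;> by_cases b ∈ Z <;> simp_all
  · rw [Sym2.eq_iff] at c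
    rcases c with ⟨rfl, rfl⟩ | ⟨rfl, rfl⟩
    · exact h1 ⟨hv, hz⟩
    · exact h2 ⟨hv, hz⟩

variable {K : Type} [Field K]

open Classical in
noncomputable def cc (ends : E → Sym2 V) (r : V) (t : K) (X Z : Finset V) : K :=
  ∑ A ∈ (EE ends X).powerset.filter (fun A => comp ends r A = Z), t ^ A.card

lemma pow_sum (t : K) (B : Finset E) : (1 + t) ^ B.card = ∑ A ∈ B.powerset, t ^ A.card := by
  simpa using prod_one_add (f := fun _ => t) B

lemma cc_split (t : K) {X Z : Finset V} (h : Z ⊆ X) :
    cc ends r t X Z = cc ends r t Z Z * (1 + t) ^ (EE ends (X \ Z)).card := by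
  classical
  have hd : Disjoint (EE ends Z) (EE ends (X \ Z)) := by
    rw [disjoint_left]
    intro e h1 h2
    induction hab : ends e using Sym2.ind with
    | _ a b => exact (mem_sdiff.1 ((mem_EE hab).1 h2).1).2 ((mem_EE hab).1 h1).1
  rw [pow_sum, cc, cc, sum_mul_sum, ← sum_product']
  symm
  refine sum_nbij' (fun p => p.1 ∪ p.2) (fun A => (A ∩ EE ends Z, A ∩ EE ends (X \ Z)))
    ?_ ?_ ?_ ?_ ?_
  · rintro ⟨A, B⟩ hp
    simp only [mem_product, mem_filter, mem_powerset] at hp ⊢
    obtain ⟨⟨h1, h2⟩, h3⟩ := hp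
    refine ⟨union_subset (h1.trans fun e he => ?_) (h3.trans fun e he => ?_),
      Subset.antisymm (comp_le (h2 ▸ r_comp A) fun e he a b hab ha => ?_)
        (h2 ▸ comp_mono subset_union_left)⟩
    · simp only [EE, mem_filter, mem_univ, true_and] at he ⊢
      exact fun v hv => h (he v hv)
    · simp only [EE, mem_filter, mem_univ, true_and] at he ⊢
      exact fun v hv => (mem_sdiff.1 (he v hv)).1
    · rcases mem_union.1 he with c | c
      · exact ((mem_EE hab).1 (h1 c)).2
      · exact absurd ha (mem_sdiff.1 ((mem_EE hab).1 (h3 c)).1).2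
  · intro A hA
    simp only [mem_product, mem_filter, mem_powerset] at hA ⊢
    refine ⟨⟨inter_subset_right, Subset.antisymm (hA.2 ▸ comp_mono inter_subset_left) ?_⟩,
      inter_subset_right⟩
    refine hA.2 ▸ comp_le (r_comp _) fun e he a b hab ha => ?_
    have p1 : a ∈ comp ends r A := comp_mono inter_subset_left ha
    exact comp_step (mem_inter.2 ⟨he, (mem_EE hab).2 ⟨p1, comp_step he hab p1⟩⟩) hab ha
  · rintro ⟨A, B⟩ hp
    simp only [mem_product, mem_filter, mem_powerset] at hp
    obtain ⟨⟨h1, -⟩, h3⟩ := hp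
    rw [disjoint_left] at hd
    ext e
    · simp only [mem_inter, mem_union]
      exact ⟨fun c => c.1.resolve_right fun d => hd c.2 (h3 d), fun c => ⟨Or.inl c, h1 c⟩⟩
    · simp only [mem_inter, mem_union]
      exact ⟨fun c => c.1.resolve_left fun d => hd (h1 d) c.2, fun c => ⟨Or.inr c, h3 c⟩⟩
  · intro A hA
    simp only [mem_filter, mem_powerset] at hA
    ext e
    simp only [mem_inter, mem_union]
    refine ⟨fun c => c.elim And.left And.left, fun c => ?_⟩
    induction hab : ends e using Sym2.ind with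
    | _ a b =>
    have p := (mem_EE hab).1 (hA.1 c)
    rw [mem_EE hab, mem_EE hab, mem_sdiff, mem_sdiff, ← hA.2]
    by_cases ha : a ∈ comp ends r A
    · exact Or.inl ⟨c, ha, comp_step c hab ha⟩
    · exact Or.inr ⟨c, ⟨p.1, ha⟩, p.2, fun hb => ha (comp_step c (hab.trans Sym2.eq_swap) hb)⟩
  · rintro ⟨A, B⟩ hp
    simp only [mem_product, mem_filter, mem_powerset] at hp
    rw [card_union_of_disjoint (hd.mono hp.1.1 hp.2), pow_add]

lemma comp_sub {X : Finset V} (hr : r ∈ X) {A : Finset E} (hA : A ⊆ EE ends X) :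
    comp ends r A ⊆ X := comp_le hr fun _ he _ _ hab _ => ((mem_EE hab).1 (hA he)).2

lemma I1 {q : K} (h0 : q ≠ 0) {X : Finset V} (hr : r ∈ X) :
    ∑ Z ∈ X.powerset.filter (r ∈ ·),
      cc ends r (q⁻¹ - 1) Z Z * q ^ (EE ends Z).card * q ^ cut (mu ends) X Z = 1 := by
  classical
  have h1 := sum_fiberwise_of_maps_to (s := (EE ends X).powerset) (t := X.powerset.filter (r ∈ ·))
    (g := comp ends r) (fun A hA => mem_filter.2
      ⟨mem_powerset.2 (comp_sub hr (mem_powerset.1 hA)), r_comp A⟩)
    (fun A => (q⁻¹ - 1) ^ A.card)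
  rw [← pow_sum] at h1
  have h2 : (1 + (q⁻¹ - 1)) * q = 1 := by field_simp; ring
  calc _ = ∑ Z ∈ X.powerset.filter (r ∈ ·), cc ends r (q⁻¹ - 1) X Z * q ^ (EE ends X).card := by
        refine sum_congr rfl fun Z hZ => ?_
        have hZ' := mem_powerset.1 (mem_filter.1 hZ).1
        rw [cc_split _ hZ', ecount hZ', pow_add, pow_add]
        have : (1 + (q⁻¹ - 1)) ^ (EE ends (X \ Z)).card * q ^ (EE ends (X \ Z)).card = 1 := by
          rw [← mul_pow, h2, one_pow]
        linear_combination
          (-(cc ends r (q⁻¹ - 1) Z Z * q ^ (EE ends Z).card * q ^ cut (mu ends) X Z)) * this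
    _ = 1 := by
        rw [← sum_mul]
        unfold cc
        rw [h1, ← mul_pow, h2, one_pow]

open Classical in
noncomputable def bb (m : V → V → ℕ) (r : V) (q : K) (Z : Finset V) : K :=
  ∑ h ∈ (Cfg m r).filter (fun h => S r h = Z), ∏ v ∈ Z.erase r, q ^ (h v - 1) * (1 - q)

lemma I2 (m : V → V → ℕ) (q : K) {X : Finset V} (hr : r ∈ X) :
    ∑ Z ∈ X.powerset.filter (r ∈ ·), bb m r q Z * q ^ cut m X Z = 1 := by
  classical
  refine Eq.trans ?_ (dhar m r q hr)
  rw [← sum_fiberwise_of_maps_to (s := (Cfg m r).filter (fun h => S r h ⊆ X))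
    (t := X.powerset.filter (r ∈ ·)) (g := S r) (fun h hh => mem_filter.2
      ⟨mem_powerset.2 (mem_filter.1 hh).2, r_mem r h⟩)]
  refine sum_congr rfl fun Z hZ => ?_
  have hZ' := mem_powerset.1 (mem_filter.1 hZ).1
  rw [bb, sum_mul, filter_filter]
  refine sum_congr ?_ fun h hh => ?_
  · ext h
    simp only [mem_filter]
    exact and_congr_right fun _ => ⟨fun a => ⟨a ▸ hZ', a⟩, And.right⟩
  · rw [(mem_filter.1 hh).2.2]

lemma cc_eq {q : K} (h0 : q ≠ 0) (X : Finset V) : r ∈ X →
    cc ends r (q⁻¹ - 1) X X * q ^ (EE ends X).card = bb (mu ends) r q X := by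
  induction X using Finset.strongInduction with
  | H X ih =>
  intro hr
  have a := I1 (ends := ends) h0 hr
  have b := I2 (mu ends) q hr
  have hm : X ∈ X.powerset.filter (r ∈ ·) := by simp [hr]
  rw [← add_sum_erase _ _ hm] at a b
  rw [sum_congr rfl (g := fun Z => bb (mu ends) r q Z * q ^ cut (mu ends) X Z) fun Z hZ => by
    simp only [mem_erase, mem_filter, mem_powerset] at hZ
    rw [ih Z (ssubset_of_ne_of_subset hZ.1 hZ.2.1) hZ.2.2]] at a
  have c : cut (mu ends) X X = 0 := by simp [cut]
  rw [c] at a b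
  linear_combination a - b

lemma D_mu (v : V) :
    D (mu ends) v = (univ.filter fun e => v ∈ ends e ∧ ends e ≠ s(v, v)).card := by
  simp only [D, dg, mu, card_filter]
  rw [sum_comm]
  refine sum_congr rfl fun e _ => ?_
  by_cases h : v ∈ ends e ∧ ends e ≠ s(v, v)
  · obtain ⟨z, hz⟩ := Sym2.mem_iff_exists.1 h.1
    have hzv : z ≠ v := fun c => h.2 (c ▸ hz)
    rw [if_pos h, sum_eq_single_of_mem z (by simp [hzv]), if_pos hz]
    intro y _ hy
    rw [hz, if_neg]
    rw [Sym2.congr_right]
    exact hy.symm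
  · rw [if_neg h]
    refine sum_eq_zero fun z hz => if_neg fun c => h ⟨by simp [c], ?_⟩
    rw [c, Ne, Sym2.congr_right]
    exact (mem_erase.1 hz).1

lemma mu_pos {u v : V} : mu ends u v ≠ 0 ↔ ∃ e, ends e = s(u, v) := by
  simp [mu, filter_eq_empty_iff]

lemma mu_le {u v : V} (h : v ≠ u) : mu ends u v ≤ D (mu ends) u :=
  single_le_sum (f := fun z => mu ends u z) (fun _ _ => Nat.zero_le _) (by simp [h])

lemma hyp : Hyp (mu ends) r (comp ends r univ) where
  symm u v := by simp only [mu, Sym2.eq_swap (a := u)]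
  root := r_comp _
  cl u hu v h := by
    obtain ⟨e, he⟩ := mu_pos.1 h
    exact comp_step (mem_univ e) he hu
  pos v hv hr := by
    by_contra h
    have : comp ends r univ ⊆ univ.erase v := by
      refine comp_le (by simp [hr.symm]) fun e _ a b hab ha => ?_
      rw [mem_erase] at ha ⊢
      refine ⟨?_, mem_univ _⟩
      rintro rfl
      have h1 := mu_pos.2 ⟨e, hab.trans Sym2.eq_swap⟩
      have h2 := mu_le (ends := ends) ha.1
      omega
    simpa using this hv

lemma Lf_eq : Lf (mu ends) r = leavesUpToLoops ends r := by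
  ext v
  simp only [Lf, leavesUpToLoops, mem_filter, mem_univ, true_and, ← D_mu, ← mu_pos]
  refine and_congr_right fun h1 => and_congr_right fun h2 => ?_
  have := mu_le (ends := ends) (Ne.symm h1)
  rw [(hyp (ends := ends) (r := r)).symm r v]
  omega

lemma fib {q : K} (h0 : q ≠ 0) (h1 : q ≠ 1) {Z : Finset V} (hr : r ∈ Z) :
    (open Classical in ∑ A ∈ univ.filter (fun A => comp ends r A = Z),
      (q⁻¹ - 1) ^ (A.card - rank ends r A)) =
    (open Classical in q⁻¹ ^ Fintype.card E *
      ∑ h ∈ (Cfg (mu ends) r).filter (fun h => S r h = Z), q ^ w (mu ends) r h) := by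
  classical
  have ht : q⁻¹ - 1 ≠ 0 := by
    rw [sub_ne_zero]; exact fun e => h1 (inv_eq_one.1 e)
  have hU : EE ends univ = univ := by ext e; simp [EE]
  refine mul_right_cancel₀ (pow_ne_zero (Z.erase r).card ht) ?_
  have a : (∑ A ∈ univ.filter (fun A => comp ends r A = Z),
      (q⁻¹ - 1) ^ (A.card - rank ends r A)) * (q⁻¹ - 1) ^ (Z.erase r).card =
      cc ends r (q⁻¹ - 1) univ Z := by
    rw [cc, hU, powerset_univ, sum_mul]
    refine sum_congr rfl fun A hA => ?_
    have p := rank_eq (ends := ends) (r := r) A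
    have p2 := card_erase_add_one hr
    rw [(mem_filter.1 hA).2] at p
    rw [← pow_add]
    congr 1
    omega
  have b : (∑ h ∈ (Cfg (mu ends) r).filter (fun h => S r h = Z), q ^ w (mu ends) r h) *
      (q⁻¹ - 1) ^ (Z.erase r).card = bb (mu ends) r q Z * q ^ cut (mu ends) univ Z := by
    rw [bb, sum_mul, sum_mul]
    refine sum_congr rfl fun h hh => ?_
    rw [mem_filter, mem_Cfg] at hh
    have c : ∑ v, h v = ∑ v ∈ Z.erase r, h v := by
      refine (sum_subset (subset_univ _) fun v _ hv => ?_).symm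
      by_contra c
      refine hv (mem_erase.2 ⟨?_, hh.2 ▸ (mem_S r).2 (Or.inr c)⟩)
      rintro rfl
      exact c hh.1.1
    rw [w, hh.2, pow_add, c, ← prod_pow_eq_pow_sum, mul_right_comm, ← prod_const, ← prod_mul_distrib]
    congr 1
    refine prod_congr rfl fun v hv => ?_
    rw [mem_erase, ← hh.2, mem_S] at hv
    obtain ⟨k, hk⟩ := Nat.exists_eq_succ_of_ne_zero (hv.2.resolve_left hv.1)
    rw [hk, Nat.succ_sub_one, pow_succ]
    field_simp
  have c := ecount (ends := ends) (subset_univ Z)
  rw [hU, card_univ] at c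
  rw [a, mul_assoc, b, ← cc_eq h0 Z hr, cc_split _ (subset_univ Z), c]
  simp only [add_sub_cancel, pow_add, inv_pow]
  field_simp

open Polynomial in
lemma tutte_map {q : K} (h0 : q ≠ 0) (h1 : q ≠ 1) :
    (tutte ends r).map (aeval q⁻¹ : ℤ[X] →ₐ[ℤ] K).toRingHom =
      C (q⁻¹ ^ Fintype.card E) * FJ (mu ends) r (comp ends r univ) X (C q) ∅ := by
  classical
  rw [tutte, Polynomial.map_sum, FJ, filter_true_of_mem (by simp),
    ← sum_fiberwise_of_maps_to (s := univ) (t := (comp ends r univ).powerset.filter (r ∈ ·))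
      (g := comp ends r) (fun A _ => mem_filter.2
        ⟨mem_powerset.2 (comp_mono (subset_univ _)), r_comp A⟩),
    ← sum_fiberwise_of_maps_to (s := Cfg (mu ends) r)
      (t := (comp ends r univ).powerset.filter (r ∈ ·)) (g := S r) (fun h hh => mem_filter.2
        ⟨mem_powerset.2 (S_sub_R hyp ((mem_Cfg _ _).1 hh)), r_mem r h⟩), mul_sum]
  refine sum_congr rfl fun Z hZ => ?_
  rw [mem_filter, mem_powerset] at hZ
  have e := congrArg (fun t => (X - 1 : K[X]) ^ (comp ends r univ \ Z).card * C t)
    (fib (ends := ends) h0 h1 hZ.2)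
  simp only [map_mul, map_sum, mul_sum] at e ⊢
  refine Eq.trans (sum_congr rfl fun A hA => ?_) (e.trans (sum_congr rfl fun h hh => ?_))
  · have p := (rank_eq (ends := ends) (r := r) A).1
    have p2 := (rank_eq (ends := ends) (r := r) univ).1
    rw [(mem_filter.1 hA).2] at p
    have p3 := card_sdiff_add_card_eq_card hZ.1
    have : rank ends r univ - rank ends r A = (comp ends r univ \ Z).card := by omega
    simp [this]
  · rw [uu, (mem_filter.1 hh).2, map_pow C q]
    ring

omit [Fintype E] [DecidableEq E] in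
lemma FJ_map {A B : Type} [CommRing A] [CommRing B] (f : A →+* B) (m : V → V → ℕ) (R : Finset V)
    (x q : A) (J : Finset V) : f (FJ m r R x q J) = FJ m r R (f x) (f q) J := by
  simp [FJ]

open Polynomial in
lemma main (k : ℕ) : X ^ k ∣ tutte ends r ↔ k ≤ (leavesUpToLoops ends r).card := by
  obtain ⟨q, hq⟩ : ∃ q : ℝ, Transcendental ℤ q := ⟨_, transcendental_liouvilleNumber le_rfl⟩
  have h0 : q ≠ 0 := by rintro rfl; exact hq isAlgebraic_zero
  have h1 : q ≠ 1 := by rintro rfl; exact hq isAlgebraic_one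
  have hi : Function.Injective (aeval q⁻¹ : ℤ[X] →ₐ[ℤ] ℝ).toRingHom :=
    transcendental_iff_injective.1 fun a => hq (IsAlgebraic.inv_iff.1 a)
  rw [← map_dvd_map _ hi (monic_X_pow k), tutte_map h0 h1, FJ_all hyp X (C q) _ Subset.rfl,
    Polynomial.map_pow, map_X, ← Lf_eq,
    (isUnit_C.2 (IsUnit.mk0 _ (pow_ne_zero _ (inv_ne_zero h0)))).dvd_mul_left]
  refine ⟨fun h => ?_, fun h => (pow_dvd_pow X h).mul_right _⟩
  by_contra hk
  have a := (pow_dvd_pow X (not_le.1 hk : (Lf (mu ends) r).card + 1 ≤ k)).trans h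
  rw [pow_succ, mul_dvd_mul_iff_left (pow_ne_zero _ X_ne_zero), X_dvd_iff, coeff_zero_eq_eval_zero,
    ← coe_evalRingHom, FJ_map] at a
  have b := FJ_map (r := r) (aeval q : ℤ[X] →ₐ[ℤ] ℝ).toRingHom (mu ends) (comp ends r univ) 0 X
    (Lf (mu ends) r)
  refine FJ_ne (hyp (ends := ends) (r := r)) (transcendental_iff_injective.1 hq ?_)
  rw [map_zero]
  refine b.trans (Eq.trans ?_ a)
  simp

lemma leaves_eq (h : ∀ e v, ends e ≠ s(v, v)) : leavesUpToLoops ends r = leaves ends r := by
  ext v
  simp only [leaves, leavesUpToLoops, deg, mem_filter, mem_univ, true_and, card_filter, h, if_false,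
    Ne, not_false_eq_true, and_true]
  refine ⟨And.right, fun a => ⟨?_, a⟩⟩
  rintro rfl
  obtain ⟨e, he⟩ := a.2
  exact h e _ he

end

theorem result :
    (∀ (V E : Type) [Fintype V] [DecidableEq V] [Fintype E] [DecidableEq E]
      (ends : E → Sym2 V) (r : V),
      (∀ k, Polynomial.X ^ k ∣ tutte ends r ↔ k ≤ (leavesUpToLoops ends r).card) ∧
      ((∀ e v, ends e ≠ s(v, v)) →
        ∀ k, Polynomial.X ^ k ∣ tutte ends r ↔ k ≤ (leaves ends r).card)) ∧
    ∃ ends : Fin 2 → Sym2 (Fin 2),
      Polynomial.X ^ 1 ∣ tutte ends 0 ∧ (leaves ends 0).card = 0 := by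
  refine ⟨fun V E _ _ _ _ ends r => ⟨main, fun h k => by rw [main, leaves_eq h]⟩,
    ![s(0, 1), s(1, 1)], (main 1).2 (by decide), by decide⟩

end Pool.Agent.Results.MP_4c49f5_co.Leaves
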